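import Pool.Agent.Run7.h81.RP.I

set_option autoImplicit false

noncomputable section

open MeasureTheory

namespace Run7.h542.RP
open Pool.Agent.Run7.h81.RP

/-- truncated geometric series -/
lemma geo {r : ℝ} (hr1 : r < 1) {J : ℕ} (hJ : r ^ J ≤ 1 - r) {w : ℂ} (hw : ‖w‖ ≤ r) :
    1 / ‖1 - w‖ ≤ ‖∑ i ∈ Finset.range J, w ^ i‖ + 1 ∧ -1 ≤ (∑ i ∈ Finset.range J, w ^ i).re := by
  have hr0 : 0 ≤ r := (norm_nonneg _).trans hw
  have h1 : 1 - r ≤ ‖1 - w‖ := by
    have := norm_sub_norm_le (1 : ℂ) w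
    rw [norm_one] at this
    linarith
  have hpos : 0 < ‖1 - w‖ := lt_of_lt_of_le (by linarith) h1
  have hne : (1 : ℂ) - w ≠ 0 := norm_pos_iff.1 hpos
  have hs : ∑ i ∈ Finset.range J, w ^ i = 1 / (1 - w) - w ^ J / (1 - w) := by
    rw [eq_comm, ← sub_div, div_eq_iff hne]
    exact (geom_sum_mul_neg w J).symm
  have hb : ‖w ^ J / (1 - w)‖ ≤ 1 := by
    rw [norm_div, norm_pow, div_le_one hpos]
    calc ‖w‖ ^ J ≤ r ^ J := pow_le_pow_left₀ (norm_nonneg _) hw _
      _ ≤ 1 - r := hJ
      _ ≤ _ := h1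
  constructor
  · have h2 : (1 : ℂ) / (1 - w) = ∑ i ∈ Finset.range J, w ^ i + w ^ J / (1 - w) := by
      rw [hs]; ring
    have h3 : 1 / ‖1 - w‖ = ‖(1 : ℂ) / (1 - w)‖ := by rw [norm_div, norm_one]
    rw [h3, h2]
    exact (norm_add_le _ _).trans (by linarith)
  · rw [hs, Complex.sub_re]
    have h4 : 0 ≤ ((1 : ℂ) / (1 - w)).re := by
      rw [one_div, Complex.inv_re]
      apply div_nonneg _ (Complex.normSq_nonneg _)
      have := Complex.re_le_norm w
      simp only [Complex.sub_re, Complex.one_re]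
      linarith
    have h5 := (Complex.abs_re_le_norm (w ^ J / (1 - w))).trans hb
    have h6 := (abs_le.1 h5).2
    linarith

/-- the truncated series as a polynomial -/
def Fp (g : Pol) (c : ℂ) (J : ℕ) : Pol := ∑ i ∈ Finset.range J, MvPolynomial.C (c ^ i) * g ^ i

lemma ev_Fp (g : Pol) (c : ℂ) (J : ℕ) (x : Fin 2 → ℂ) :
    ev x (Fp g c J) = ∑ i ∈ Finset.range J, (c * ev x g) ^ i := by
  simp only [ev, Fp, map_sum, map_mul, MvPolynomial.eval_C, map_pow, mul_pow]

lemma coeff_Fp {g : Pol} (hg : MvPolynomial.constantCoeff g = 0) (c : ℂ) {J : ℕ} (hJ : J ≠ 0) :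
    MvPolynomial.constantCoeff (Fp g c J) = 1 := by
  simp only [Fp, map_sum, map_mul, MvPolynomial.constantCoeff_C, map_pow, hg]
  rw [Finset.sum_eq_single 0]
  · simp
  · intro i _ hi
    rw [zero_pow hi, mul_zero]
  · intro h
    exact absurd (Finset.mem_range.2 (Nat.pos_of_ne_zero hJ)) h

lemma cont_ev (p : Pol) : Continuous fun x : Fin 2 → ℂ => ev x p := by
  unfold ev
  exact MvPolynomial.continuous_eval p

theorem final (h1 : S_SETS) (h2 : S_INT) (h3 : S_ORTH) (h4 : S_INNER) (h5 : S_AVG) : S_FINAL := by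
  intro H
  obtain ⟨M, hM'⟩ := H 2 le_rfl
  have hM : ∀ p : Pol, (MvPolynomial.constantCoeff p).im = 0 →
      ∫ z in B, ‖ev (u z) p‖ ≤ M * ∫ z in B, |(ev (u z) p).re| := hM'
  obtain ⟨mB, mBI, fB, pBI, hSph, -, hu0⟩ := h1
  have hsub : BI ⊆ B := fun z hz => hz.1
  set V := volume.real B with hV
  set b := volume.real BI with hb
  have hb0 : 0 < b := ENNReal.toReal_pos pBI.ne' (lt_of_le_of_lt (measure_mono hsub) fB).ne
  have hbV : b ≤ V := measureReal_mono hsub fB.ne
  have hV0 : 0 < V := hb0.trans_le hbV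
  obtain ⟨n, hn, hn0⟩ : ∃ n : ℕ, 16 * ((3 * |M| + 1) * V) / b <
      ∑ i ∈ Finset.range n, 1 / ((i : ℝ) + 1) ∧ 0 < n := by
    have h := (Real.tendsto_sum_range_one_div_nat_succ_atTop.eventually_gt_atTop
      (16 * ((3 * |M| + 1) * V) / b)).and (Filter.eventually_gt_atTop 0)
    exact h.exists
  set Hn := ∑ i ∈ Finset.range n, 1 / ((i : ℝ) + 1) with hHn
  have hn' : (0 : ℝ) < n := by exact_mod_cast hn0
  have hHn0 : 0 ≤ Hn := Finset.sum_nonneg fun i _ => by positivity
  obtain ⟨g, hg0, hg1, hg2⟩ := h4 (b / (4 * n)) (by positivity)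
  set r : ℝ := 1 - 1 / (2 * n) with hr
  have hn1 : (1 : ℝ) ≤ n := by exact_mod_cast hn0
  have hr2 : 1 / (2 * (n : ℝ)) ≤ 1 / 2 := by
    apply one_div_le_one_div_of_le (by norm_num)
    linarith
  have hr3 : 0 < 1 / (2 * (n : ℝ)) := by positivity
  have hr0 : 0 < r := by rw [hr]; linarith
  have hr1 : r < 1 := by rw [hr]; linarith
  obtain ⟨J, hJ⟩ := exists_pow_lt_of_lt_one (show (0 : ℝ) < 1 - r by linarith) hr1
  have hJ0 : J ≠ 0 := by
    rintro rfl
    rw [pow_zero] at hJ
    linarith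
  -- values of g
  have hgw : ∀ z, ‖ev (u z) g‖ ≤ 1 := by
    intro z
    by_cases hz : z = 0
    · rw [hz, hu0]
      have : ev 0 g = MvPolynomial.constantCoeff g := by
        simp [ev, MvPolynomial.constantCoeff_eq, MvPolynomial.eval_zero]
      rw [this, hg0, norm_zero]
      exact zero_le_one
    · exact hg1 _ (hSph z hz)
  set c : ℕ → ℂ := fun l => (r : ℂ) * Complex.exp (2 * Real.pi * Complex.I * (l / n)) with hc
  have hexp : ∀ l : ℕ, ‖Complex.exp (2 * Real.pi * Complex.I * (l / n))‖ = 1 := by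
    intro l
    have : (2 * Real.pi * Complex.I * (l / n) : ℂ) = ((2 * Real.pi * (l / n) : ℝ) : ℂ) * Complex.I := by
      push_cast; ring
    rw [this, Complex.norm_exp_ofReal_mul_I]
  have hcn : ∀ l z, ‖c l * ev (u z) g‖ ≤ r := by
    intro l z
    rw [hc, norm_mul, norm_mul, hexp, Complex.norm_real, Real.norm_eq_abs, abs_of_pos hr0, mul_one]
    calc r * ‖ev (u z) g‖ ≤ r * 1 := mul_le_mul_of_nonneg_left (hgw z) hr0.le
      _ = r := mul_one r
  have hint : ∀ F : (Fin 2 → ℂ) → ℝ, Continuous F → IntegrableOn (fun z => F (u z)) B := h2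
  have hintI : ∀ F : (Fin 2 → ℂ) → ℝ, Continuous F → IntegrableOn (fun z => F (u z)) BI :=
    fun F hF => (h2 F hF).mono_set hsub
  -- upper bound
  have hup : ∀ l, ∫ z in B, ‖ev (u z) (Fp g (c l) J)‖ ≤ 3 * |M| * V := by
    intro l
    set p := Fp g (c l) J with hp
    have hpc : MvPolynomial.constantCoeff p = 1 := coeff_Fp hg0 _ hJ0
    have e1 := hM p (by rw [hpc]; simp)
    have i1 : IntegrableOn (fun z => (ev (u z) p).re) B :=
      hint (fun x => (ev x p).re) (Complex.continuous_re.comp (cont_ev p))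
    have i2 : IntegrableOn (fun z => (ev (u z) p).im) B :=
      hint (fun x => (ev x p).im) (Complex.continuous_im.comp (cont_ev p))
    have i3 : IntegrableOn (fun z => |(ev (u z) p).re|) B :=
      hint (fun x => |(ev x p).re|) (continuous_abs.comp (Complex.continuous_re.comp (cont_ev p)))
    have i4 : IntegrableOn (fun z => ev (u z) p) B := by
      have := i1.ofReal (𝕜 := ℂ) |>.add (i2.ofReal (𝕜 := ℂ) |>.mul_const Complex.I)
      refine this.congr (Filter.Eventually.of_forall fun z => ?_)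
      exact Complex.re_add_im _
    have e2 : ∫ z in B, (ev (u z) p).re = V := by
      have h := h3.2 p
      rw [hpc, one_mul] at h
      have h' := integral_re (𝕜 := ℂ) i4
      have h'' : ∫ z in B, RCLike.re (ev (u z) p) = (∫ z in B, ev (u z) p).re := h'
      rw [h, Complex.ofReal_re] at h''
      exact h''
    have e3 : ∫ z in B, |(ev (u z) p).re| ≤ 3 * V := by
      have hcst : IntegrableOn (fun _ : Fin 2 → ℂ => (2 : ℝ)) B := integrableOn_const fB.ne
      have : ∫ z in B, |(ev (u z) p).re| ≤ ∫ z in B, ((ev (u z) p).re + 2) := by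
        refine integral_mono i3 (i1.add hcst) fun z => ?_
        have hg := (geo hr1 hJ.le (hcn l z)).2
        rw [← ev_Fp, ← hp] at hg
        simp only
        rw [abs_le]
        constructor <;> linarith
      rw [integral_add i1 hcst, e2, setIntegral_const, smul_eq_mul] at this
      have hVV : volume.real B = V := rfl
      rw [hVV] at this
      linarith
    have e4 : 0 ≤ ∫ z in B, |(ev (u z) p).re| := integral_nonneg fun z => abs_nonneg _
    calc ∫ z in B, ‖ev (u z) p‖ ≤ M * ∫ z in B, |(ev (u z) p).re| := e1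
      _ ≤ |M| * ∫ z in B, |(ev (u z) p).re| := mul_le_mul_of_nonneg_right (le_abs_self M) e4
      _ ≤ |M| * (3 * V) := mul_le_mul_of_nonneg_left e3 (abs_nonneg M)
      _ = 3 * |M| * V := by ring
  -- the average
  set A : (Fin 2 → ℂ) → ℝ := fun x =>
    (1 / (n : ℝ)) * ∑ l ∈ Finset.range n, (‖ev x (Fp g (c l) J)‖ + 1) with hA
  have hAc : Continuous A := by
    refine continuous_const.mul (continuous_finsetSum _ fun l _ => ?_)
    exact (continuous_norm.comp (cont_ev _)).add continuous_const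
  have hA0 : ∀ x, 0 ≤ A x := fun x =>
    mul_nonneg (by positivity) (Finset.sum_nonneg fun l _ => by positivity)
  have hAup : ∫ z in B, A (u z) ≤ (3 * |M| + 1) * V := by
    have i5 : ∀ l ∈ Finset.range n, IntegrableOn (fun z => ‖ev (u z) (Fp g (c l) J)‖ + 1) B :=
      fun l _ => hint (fun x => ‖ev x (Fp g (c l) J)‖ + 1)
        ((continuous_norm.comp (cont_ev _)).add continuous_const)
    simp only [hA]
    rw [integral_const_mul, integral_finset_sum _ i5]
    have hl : ∀ l ∈ Finset.range n, ∫ z in B, (‖ev (u z) (Fp g (c l) J)‖ + 1) ≤ (3 * |M| + 1) * V := by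
      intro l _
      have i6 : IntegrableOn (fun z => ‖ev (u z) (Fp g (c l) J)‖) B :=
        hint (fun x => ‖ev x (Fp g (c l) J)‖) (continuous_norm.comp (cont_ev _))
      have hcst : IntegrableOn (fun _ : Fin 2 → ℂ => (1 : ℝ)) B := integrableOn_const fB.ne
      rw [integral_add i6 hcst, setIntegral_const, smul_eq_mul, mul_one]
      have := hup l
      have hVV : volume.real B = V := rfl
      rw [hVV]
      linarith
    have := Finset.sum_le_sum hl
    rw [Finset.sum_const, Finset.card_range, nsmul_eq_mul] at this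
    calc (1 / (n : ℝ)) * ∑ l ∈ Finset.range n, ∫ z in B, (‖ev (u z) (Fp g (c l) J)‖ + 1)
        ≤ (1 / (n : ℝ)) * (n * ((3 * |M| + 1) * V)) := mul_le_mul_of_nonneg_left this (by positivity)
      _ = (3 * |M| + 1) * V := by field_simp
  -- lower bound
  have hAlow : ∀ z, Hn / 8 * (1 - 2 * n * (1 - ‖ev (u z) g‖ ^ 2)) ≤ A (u z) := by
    intro z
    set w := ev (u z) g with hw
    by_cases hcase : 1 - 1 / (2 * (n : ℝ)) ≤ ‖w‖
    · have hw1 := hgw z
      rw [← hw] at hw1
      have hnw : ‖(r : ℂ) * w‖ = r * ‖w‖ := by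
        rw [norm_mul, Complex.norm_real, Real.norm_eq_abs, abs_of_pos hr0]
      have e5 := h5 n ((r : ℂ) * w) hn0 (by rw [hnw]; nlinarith) (by
        rw [hnw]
        have : (1 : ℝ) / n = 2 * (1 / (2 * n)) := by field_simp
        rw [this]
        rw [hr]
        nlinarith)
      have e6 : (1 / (n : ℝ)) * ∑ l ∈ Finset.range n,
          1 / ‖1 - Complex.exp (2 * Real.pi * Complex.I * (l / n)) * ((r : ℂ) * w)‖ ≤ A (u z) := by
        simp only [hA]
        refine mul_le_mul_of_nonneg_left (Finset.sum_le_sum fun l _ => ?_) (by positivity)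
        have hg := (geo hr1 hJ.le (hcn l z)).1
        rw [← ev_Fp, ← hw] at hg
        have e7 : Complex.exp (2 * Real.pi * Complex.I * (l / n)) * ((r : ℂ) * w) = c l * w := by
          simp only [hc]; ring
        rw [e7]
        exact hg
      have e8 : Hn / 8 * (1 - 2 * n * (1 - ‖w‖ ^ 2)) ≤ Hn / 8 := by
        have h9 : 0 ≤ 2 * (n : ℝ) * (1 - ‖w‖ ^ 2) := by
          apply mul_nonneg (by positivity)
          have := norm_nonneg w
          nlinarith
        nlinarith
      exact e8.trans (e5.trans e6)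
    · push Not at hcase
      have h10 : 1 - 2 * (n : ℝ) * (1 - ‖w‖ ^ 2) ≤ 0 := by
        have := norm_nonneg w
        have h11 : 1 / (2 * (n : ℝ)) ≤ 1 - ‖w‖ ^ 2 := by
          have hw1 := hgw z
          rw [← hw] at hw1
          nlinarith
        rw [div_le_iff₀ (by positivity)] at h11
        linarith
      exact (mul_nonpos_of_nonneg_of_nonpos (by positivity) h10).trans (hA0 _)
  have hi7 : IntegrableOn (fun z => 1 - ‖ev (u z) g‖ ^ 2) BI :=
    hintI (fun x => 1 - ‖ev x g‖ ^ 2) (continuous_const.sub ((continuous_norm.comp (cont_ev g)).pow 2))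
  have hfI : volume BI ≠ ⊤ := (lt_of_le_of_lt (measure_mono hsub) fB).ne
  have hcst : IntegrableOn (fun _ : Fin 2 → ℂ => (1 : ℝ)) BI := integrableOn_const hfI
  have e9 : Hn / 8 * (b - 2 * n * (b / (4 * n))) ≤ ∫ z in BI, A (u z) := by
    have e10 : ∫ z in BI, Hn / 8 * (1 - 2 * n * (1 - ‖ev (u z) g‖ ^ 2)) ≤ ∫ z in BI, A (u z) := by
      refine integral_mono ?_ (hintI A hAc) hAlow
      exact (hcst.sub (hi7.const_mul _)).const_mul _
    rw [integral_const_mul, integral_sub hcst (hi7.const_mul _), integral_const_mul, setIntegral_const,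
      smul_eq_mul, mul_one] at e10
    refine le_trans ?_ e10
    apply mul_le_mul_of_nonneg_left _ (by positivity)
    have hbb : volume.real BI = b := rfl
    rw [hbb]
    have := mul_le_mul_of_nonneg_left hg2 (show (0 : ℝ) ≤ 2 * n by positivity)
    linarith
  have e11 : ∫ z in BI, A (u z) ≤ ∫ z in B, A (u z) :=
    setIntegral_mono_set (hint A hAc) (Filter.Eventually.of_forall fun z => hA0 _)
      (HasSubset.Subset.eventuallyLE hsub)
  have e12 : Hn / 8 * (b - 2 * n * (b / (4 * n))) = Hn * b / 16 := by field_simp; ring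
  rw [e12] at e9
  have e13 := e9.trans (e11.trans hAup)
  rw [div_lt_iff₀ hb0] at hn
  linarith

end Run7.h542.RP
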